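import Pool.Agent.W809.JS.Stm
/-! JN-BR: a holomorphic branch meets `Im Z(w) = (Im w)^2` in a null set. -/
set_option autoImplicit false

open MeasureTheory Filter Topology Set Metric Real

namespace Pool.Agent.W741.JS
open Pool.Agent.W809.JS

lemma oneD {f : ℝ → ℝ} {c d : ℝ} (hf : AnalyticOnNhd ℝ f (Ioo c d))
    (h : volume {t | t ∈ Ioo c d ∧ f t = 0} ≠ 0) : ∀ t ∈ Ioo c d, f t = 0 := by
  rcases hf.eqOn_zero_or_eventually_ne_zero_of_preconnected isPreconnected_Ioo with h1 | h1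
  · exact h1
  · exfalso
    apply h
    have h2 : ∀ᵐ t ∂(volume.restrict (Ioo c d)), f t ≠ 0 :=
      ae_restrict_le_codiscreteWithin measurableSet_Ioo h1
    rw [ae_restrict_iff' measurableSet_Ioo] at h2
    rw [← compl_mem_ae_iff]
    filter_upwards [h2] with t ht hcon
    exact ht hcon.1 hcon.2

lemma dirDeriv {G : ℂ → ℂ} {G' w : ℂ} (v : ℂ) (hG : HasDerivAt G G' w) :
    HasDerivAt (fun x : ℝ => G (w + (x : ℂ) * v)) (v * G') 0 := by
  have h1 : HasDerivAt (fun x : ℝ => w + (x : ℂ) * v) v 0 := by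
    have := ((Complex.ofRealCLM.hasDerivAt (x := (0:ℝ))).mul_const v).const_add w
    simpa using this
  have h2 : HasFDerivAt G (((ContinuousLinearMap.toSpanSingleton ℂ G').restrictScalars ℝ : ℂ →L[ℝ] ℂ))
      (w + ((0 : ℝ) : ℂ) * v) := by
    have := hG.hasFDerivAt.restrictScalars ℝ
    simpa using this
  have h3 := h2.comp_hasDerivAt (0 : ℝ) h1
  have e : (((ContinuousLinearMap.toSpanSingleton ℂ G').restrictScalars ℝ : ℂ →L[ℝ] ℂ)) v = v * G' := by
    simp
  rw [e] at h3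
  exact h3

lemma contra {Z : ℂ → ℂ} {Q : Set ℂ} (hQ : IsOpen Q) (hne : Q.Nonempty) (hZ : DifferentiableOn ℂ Z Q)
    (h : ∀ w ∈ Q, (Z w).im = w.im ^ 2) : False := by
  have hev : ∀ w ∈ Q, ∀ v : ℂ, ∀ᶠ x : ℝ in 𝓝 0, w + (x : ℂ) * v ∈ Q := by
    intro w hw v
    have hc : Continuous (fun x : ℝ => w + (x : ℂ) * v) := by fun_prop
    have h0 : (fun x : ℝ => w + (x : ℂ) * v) 0 = w := by simp
    refine hc.continuousAt.eventually_mem ?_
    have h1 : Q ∈ 𝓝 ((fun x : ℝ => w + (x : ℂ) * v) 0) := by rw [h0]; exact hQ.mem_nhds hw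
    exact h1
  have hd : ∀ w ∈ Q, deriv Z w = ((2 * w.im : ℝ) : ℂ) := by
    intro w hw
    have hG := ((hZ w hw).differentiableAt (hQ.mem_nhds hw)).hasDerivAt
    apply Complex.ext
    · have h1 := dirDeriv Complex.I hG
      have h2 := Complex.imCLM.hasFDerivAt.comp_hasDerivAt (0:ℝ) h1
      have h3 : HasDerivAt (fun x : ℝ => (w.im + x) ^ 2) (2 * w.im) 0 := by
        have := ((hasDerivAt_id (0:ℝ)).const_add w.im).fun_pow 2
        simpa using this
      have h4 : (fun x : ℝ => Complex.imCLM (Z (w + (x : ℂ) * Complex.I))) =ᶠ[𝓝 0]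
          (fun x : ℝ => (w.im + x) ^ 2) := by
        filter_upwards [hev w hw Complex.I] with x hx
        have := h _ hx
        simp only [Complex.imCLM_apply]
        rw [this]; simp
      have h5 := h2.unique (h3.congr_of_eventuallyEq h4)
      simpa using h5
    · have h1 := dirDeriv 1 hG
      have h2 := Complex.imCLM.hasFDerivAt.comp_hasDerivAt (0:ℝ) h1
      have h3 : HasDerivAt (fun _ : ℝ => w.im ^ 2) 0 (0:ℝ) := hasDerivAt_const _ _
      have h4 : (fun x : ℝ => Complex.imCLM (Z (w + (x : ℂ) * 1))) =ᶠ[𝓝 0]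
          (fun _ : ℝ => w.im ^ 2) := by
        filter_upwards [hev w hw 1] with x hx
        have := h _ hx
        simp only [Complex.imCLM_apply]
        rw [this]; simp
      have h5 := h2.unique (h3.congr_of_eventuallyEq h4)
      simpa using h5
  obtain ⟨w, hw⟩ := hne
  have hZ2 : DifferentiableOn ℂ (deriv Z) Q := hZ.deriv hQ
  have hG := ((hZ2 w hw).differentiableAt (hQ.mem_nhds hw)).hasDerivAt
  have e1 : deriv (deriv Z) w = 0 := by
    have h1 := dirDeriv 1 hG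
    have h3 : HasDerivAt (fun _ : ℝ => ((2 * w.im : ℝ) : ℂ)) 0 (0:ℝ) := hasDerivAt_const _ _
    have h4 : (fun x : ℝ => deriv Z (w + (x : ℂ) * 1)) =ᶠ[𝓝 0] (fun _ : ℝ => ((2 * w.im : ℝ) : ℂ)) := by
      filter_upwards [hev w hw 1] with x hx
      rw [hd _ hx]; simp
    have h5 := h1.unique (h3.congr_of_eventuallyEq h4)
    simpa using h5
  have h1 := dirDeriv Complex.I hG
  have h3 : HasDerivAt (fun x : ℝ => ((2 * (w.im + x) : ℝ) : ℂ)) 2 (0:ℝ) := by
    have h30 : HasDerivAt (fun x : ℝ => 2 * (w.im + x)) (2 * 1) (0:ℝ) :=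
      ((hasDerivAt_id (0:ℝ)).const_add w.im).const_mul 2
    have := Complex.ofRealCLM.hasFDerivAt.comp_hasDerivAt (0:ℝ) h30
    have e : Complex.ofRealCLM (2 * 1 : ℝ) = (2 : ℂ) := by simp
    rw [e] at this
    exact this
  have h4 : (fun x : ℝ => deriv Z (w + (x : ℂ) * Complex.I)) =ᶠ[𝓝 0]
      (fun x : ℝ => ((2 * (w.im + x) : ℝ) : ℂ)) := by
    filter_upwards [hev w hw Complex.I] with x hx
    rw [hd _ hx]; simp
  have h5 := h1.unique (h3.congr_of_eventuallyEq h4)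
  rw [e1] at h5
  norm_num at h5

lemma an_vert {V : Set ℂ} {Z : ℂ → ℂ} (hV : IsOpen V) (hZ : DifferentiableOn ℂ Z V) (p v : ℂ) :
    AnalyticOnNhd ℝ (fun t : ℝ => (Z (p + (t : ℂ) * v)).im - (p + (t : ℂ) * v).im ^ 2)
      {t : ℝ | p + (t : ℂ) * v ∈ V} := by
  have hA := hZ.analyticOnNhd hV
  intro t ht
  have h1 : AnalyticAt ℝ Z ((fun t : ℝ => p + (t : ℂ) * v) t) := (hA _ ht).restrictScalars
  have h2 : AnalyticAt ℝ (fun t : ℝ => p + (t : ℂ) * v) t :=
    analyticAt_const.add ((Complex.ofRealCLM.analyticAt t).mul analyticAt_const)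
  have h3 : AnalyticAt ℝ (fun t : ℝ => Z (p + (t : ℂ) * v)) t := by
    exact AnalyticAt.comp (g := Z) (f := fun t : ℝ => p + (t : ℂ) * v) h1 h2
  have h4 : AnalyticAt ℝ (fun t : ℝ => (Z (p + (t : ℂ) * v)).im) t :=
    (Complex.imCLM.analyticAt _).fun_comp h3
  have h5 : AnalyticAt ℝ (fun t : ℝ => (p + (t : ℂ) * v).im) t :=
    (Complex.imCLM.analyticAt _).fun_comp h2
  exact h4.sub (h5.pow 2)

theorem br : S_BR := by
  intro V Z hV hZ
  set u : ℂ → ℝ := fun w => (Z w).im - w.im ^ 2 with hu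
  have hset : {w : ℂ | w ∈ V ∧ (Z w).im = w.im ^ 2} = {w : ℂ | w ∈ V ∧ u w = 0} := by
    ext w; simp [hu, sub_eq_zero]
  rw [hset]
  refine measure_null_of_locally_null _ (fun w0 hw0 => ?_)
  obtain ⟨r, hr, hball⟩ : ∃ r > 0, Ioo (w0.re - r) (w0.re + r) ×ℂ Ioo (w0.im - r) (w0.im + r) ⊆ V := by
    obtain ⟨ε, hε, hb⟩ := Metric.isOpen_iff.1 hV w0 hw0.1
    refine ⟨ε / 2, by positivity, fun w hw => hb ?_⟩
    rw [Complex.mem_reProdIm] at hw
    rw [mem_ball, Complex.dist_eq]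
    refine lt_of_le_of_lt (Complex.norm_le_abs_re_add_abs_im _) ?_
    have h1 : |(w - w0).re| < ε / 2 := by
      rw [Complex.sub_re, abs_lt]; constructor <;> linarith [hw.1.1, hw.1.2]
    have h2 : |(w - w0).im| < ε / 2 := by
      rw [Complex.sub_im, abs_lt]; constructor <;> linarith [hw.2.1, hw.2.2]
    linarith
  set a := w0.re - r with ha
  set b := w0.re + r with hb
  set c := w0.im - r with hc
  set d := w0.im + r with hd
  have hQo : IsOpen (Ioo a b ×ℂ Ioo c d) := isOpen_Ioo.reProdIm isOpen_Ioo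
  have hw0Q : w0 ∈ Ioo a b ×ℂ Ioo c d := by
    rw [Complex.mem_reProdIm]
    exact ⟨⟨by linarith, by linarith⟩, ⟨by linarith, by linarith⟩⟩
  refine ⟨Ioo a b ×ℂ Ioo c d ∩ {w : ℂ | w ∈ V ∧ u w = 0}, ?_, ?_⟩
  · rw [inter_comm]
    exact inter_mem_nhdsWithin _ (hQo.mem_nhds hw0Q)
  by_contra hpos
  have hsub : Ioo a b ×ℂ Ioo c d ∩ {w : ℂ | w ∈ V ∧ u w = 0} = Ioo a b ×ℂ Ioo c d ∩ u ⁻¹' {0} := by
    ext w
    constructor
    · rintro ⟨h1, h2⟩; exact ⟨h1, h2.2⟩
    · rintro ⟨h1, h2⟩; exact ⟨h1, hball h1, h2⟩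
  rw [hsub] at hpos
  have huc : ContinuousOn u (Ioo a b ×ℂ Ioo c d) := by
    have h1 : ContinuousOn Z (Ioo a b ×ℂ Ioo c d) := (hZ.mono hball).continuousOn
    exact (Complex.continuous_im.comp_continuousOn h1).sub (Complex.continuous_im.pow 2).continuousOn
  have hmeas : MeasurableSet (Ioo a b ×ℂ Ioo c d ∩ u ⁻¹' {0}) := by
    have h1 : IsOpen (Ioo a b ×ℂ Ioo c d ∩ u ⁻¹' {0}ᶜ) :=
      huc.isOpen_inter_preimage hQo isOpen_compl_singleton
    have h2 : Ioo a b ×ℂ Ioo c d ∩ u ⁻¹' {0}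
        = (Ioo a b ×ℂ Ioo c d) \ (Ioo a b ×ℂ Ioo c d ∩ u ⁻¹' {0}ᶜ) := by
      ext w; simp only [mem_inter_iff, mem_preimage, mem_singleton_iff, Set.mem_sdiff, mem_compl_iff]; tauto
    rw [h2]
    exact hQo.measurableSet.diff h1.measurableSet
  set E' : Set (ℝ × ℝ) := Complex.measurableEquivRealProd.symm ⁻¹' (Ioo a b ×ℂ Ioo c d ∩ u ⁻¹' {0}) with hE'
  have hE'm : MeasurableSet E' := Complex.measurableEquivRealProd.symm.measurable hmeas
  have hE'v : volume E' ≠ 0 := by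
    rw [hE', (Complex.volume_preserving_equiv_real_prod.symm _).measure_preimage_equiv]
    exact hpos
  have hmem : ∀ x t : ℝ, (x, t) ∈ E' ↔ x ∈ Ioo a b ∧ t ∈ Ioo c d ∧ u ((x : ℂ) + (t : ℂ) * Complex.I) = 0 := by
    intro x t
    have e : (Complex.measurableEquivRealProd.symm (x, t) : ℂ) = (x : ℂ) + (t : ℂ) * Complex.I := by
      apply Complex.ext <;> simp
    rw [hE', mem_preimage, e, mem_inter_iff, Complex.mem_reProdIm]
    simp [and_assoc]
  rw [Measure.volume_eq_prod, Ne, Measure.measure_prod_null hE'm] at hE'v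
  have hQV : ∀ x ∈ Ioo a b, ∀ t ∈ Ioo c d, (x : ℂ) + (t : ℂ) * Complex.I ∈ V := by
    intro x hx t ht
    apply hball
    rw [Complex.mem_reProdIm]
    simpa using ⟨hx, ht⟩
  set X : Set ℝ := {x | volume (Prod.mk x ⁻¹' E') ≠ 0} with hX
  have hXv : volume X ≠ 0 := by
    intro h0
    apply hE'v
    rw [EventuallyEq, ae_iff]
    exact h0
  have hvert : ∀ x ∈ X, x ∈ Ioo a b ∧ ∀ t ∈ Ioo c d, u ((x : ℂ) + (t : ℂ) * Complex.I) = 0 := by
    intro x hx
    have hxab : x ∈ Ioo a b := by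
      by_contra hcon
      apply hx
      have : Prod.mk x ⁻¹' E' = ∅ := by
        ext t
        simp only [mem_preimage, mem_empty_iff_false, iff_false, hmem]
        tauto
      rw [this]; simp
    refine ⟨hxab, ?_⟩
    have han : AnalyticOnNhd ℝ (fun t : ℝ => u ((x : ℂ) + (t : ℂ) * Complex.I)) (Ioo c d) :=
      (an_vert hV hZ (x : ℂ) Complex.I).mono (fun t ht => hQV x hxab t ht)
    refine oneD han ?_
    intro h0
    apply hx
    refine measure_mono_null (fun t ht => ?_) h0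
    have := (hmem x t).1 ht
    exact ⟨this.2.1, this.2.2⟩
  have hall : ∀ t ∈ Ioo c d, ∀ x ∈ Ioo a b, u ((x : ℂ) + (t : ℂ) * Complex.I) = 0 := by
    intro t ht
    have han : AnalyticOnNhd ℝ (fun x : ℝ => u ((x : ℂ) + (t : ℂ) * Complex.I)) (Ioo a b) := by
      have h1 := (an_vert hV hZ ((t : ℂ) * Complex.I) 1)
      have h2 : (fun x : ℝ => u ((x : ℂ) + (t : ℂ) * Complex.I))
          = (fun x : ℝ => (Z ((t : ℂ) * Complex.I + (x : ℂ) * 1)).im
            - ((t : ℂ) * Complex.I + (x : ℂ) * 1).im ^ 2) := by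
        funext x
        rw [mul_one, add_comm]
      rw [h2]
      refine h1.mono (fun x hx => ?_)
      have := hQV x hx t ht
      simpa [add_comm] using this
    refine oneD han ?_
    intro h0
    apply hXv
    refine measure_mono_null (fun x hx => ?_) h0
    exact ⟨(hvert x hx).1, (hvert x hx).2 t ht⟩
  refine contra hQo ⟨w0, hw0Q⟩ (hZ.mono hball) (fun w hw => ?_)
  rw [Complex.mem_reProdIm] at hw
  have := hall w.im hw.2 w.re hw.1
  rw [Complex.re_add_im] at this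
  simp only [hu] at this
  linarith

end Pool.Agent.W741.JS
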